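import Mathlib

/-!
# Sums of the first rows of a Plancherel-random partition are not log-concave

For every `r ≥ 2` and all sufficiently large `n` the distribution of `λ₁ + ⋯ + λ_r` under the
Plancherel measure on partitions of `n` fails to be log-concave, at `j = 2 r - 1`.
-/

namespace Pool.Agent.Results.MP_64a7c6_pr.SumsNotLogConcave

open Finset

/-- The partitions of `n`, as nonincreasing functions `Fin n → ℕ` with sum `n`
(the part `λ_{i+1}` is the value at `i`). -/
def Par (n : ℕ) : Finset (Fin n → ℕ) :=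
  (Fintype.piFinset fun _ => Finset.range (n + 1)).filter
    fun l => (∀ i j : Fin n, i ≤ j → l j ≤ l i) ∧ ∑ i, l i = n

/-- The cells of the diagram of `l`. -/
abbrev Cells {n : ℕ} (l : Fin n → ℕ) : Type := (i : Fin n) × Fin (l i)

/-- Standard Young tableaux of shape `l`: bijective fillings of the cells by `n` consecutive
numbers, increasing along rows and columns. -/
def IsSYT {n : ℕ} (l : Fin n → ℕ) (T : Cells l → Fin n) : Prop :=
  Function.Bijective T ∧
  (∀ (i : Fin n) (j k : Fin (l i)), j < k → T ⟨i, j⟩ < T ⟨i, k⟩) ∧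
  (∀ (i i' : Fin n) (j : Fin (l i)) (j' : Fin (l i')), i < i' → (j : ℕ) = j' →
    T ⟨i, j⟩ < T ⟨i', j'⟩)

/-- `f^λ`, the number of standard Young tableaux of shape `λ`. -/
noncomputable def f {n : ℕ} (l : Fin n → ℕ) : ℕ := Nat.card {T : Cells l → Fin n // IsSYT l T}

/-- The sum of the first `r` parts. -/
def S {n : ℕ} (r : ℕ) (l : Fin n → ℕ) : ℕ := ∑ i : Fin n, if (i : ℕ) < r then l i else 0

/-- `μ_n (λ₁ + ⋯ + λ_r = s)` under the Plancherel measure `μ_n(λ) = (f^λ)^2 / n!`. -/
noncomputable def prob (n r s : ℕ) : ℝ :=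
  ∑ l ∈ (Par n).filter (fun l => S r l = s), ((f l : ℝ) ^ 2 / (n.factorial : ℝ))

/-! ### The upper bound `f^λ ≤ n ^ (number of cells outside the first column)` -/

/-- The cells outside the first column. -/
abbrev Outer {n : ℕ} (l : Fin n → ℕ) : Type := {c : Cells l // 0 < (c.2 : ℕ)}

/-- The rows. -/
abbrev Rows {n : ℕ} (l : Fin n → ℕ) : Type := {i : Fin n // 0 < l i}

/-- The first column of a tableau. -/
def col {n : ℕ} {l : Fin n → ℕ} (T : Cells l → Fin n) (i : Rows l) : Fin n := T ⟨i.1, ⟨0, i.2⟩⟩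

lemma range_col {n : ℕ} {l : Fin n → ℕ} {T : Cells l → Fin n} (hT : Function.Bijective T) :
    Set.range (col T) = (T '' {c | 0 < (c.2 : ℕ)})ᶜ := by
  ext x
  simp only [Set.mem_range, Set.mem_compl_iff, Set.mem_image, not_exists, not_and]
  constructor
  · rintro ⟨i, rfl⟩ c hc h
    have := hT.1 h
    subst this
    simp at hc
  · intro h
    obtain ⟨⟨i, j⟩, rfl⟩ := hT.2 x
    have hj : ¬ 0 < (j : ℕ) := fun hj => h ⟨i, j⟩ hj rfl
    have hj0 : (j : ℕ) = 0 := by omega
    have hpos : 0 < l i := lt_of_le_of_lt (Nat.zero_le _) j.2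
    have hjeq : j = ⟨0, hpos⟩ := Fin.ext hj0
    refine ⟨⟨i, hpos⟩, ?_⟩
    rw [hjeq]
    rfl

lemma syt_determined {n : ℕ} {l : Fin n → ℕ} {T T' : Cells l → Fin n} (hT : IsSYT l T)
    (hT' : IsSYT l T') (h : ∀ c : Cells l, 0 < (c.2 : ℕ) → T c = T' c) : T = T' := by
  have himg : T '' {c | 0 < (c.2 : ℕ)} = T' '' {c | 0 < (c.2 : ℕ)} := Set.image_congr h
  have hr : Set.range (col T) = Set.range (col T') := by
    rw [range_col hT.1, range_col hT'.1, himg]
  have hm : StrictMono (col T) := fun i i' hii' => hT.2.2 _ _ _ _ hii' rfl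
  have hm' : StrictMono (col T') := fun i i' hii' => hT'.2.2 _ _ _ _ hii' rfl
  have hcol : col T = col T' := (StrictMono.range_inj hm hm').1 hr
  funext c
  obtain ⟨i, j⟩ := c
  by_cases hj : 0 < (j : ℕ)
  · exact h _ hj
  · have hj0 : (j : ℕ) = 0 := by omega
    have hpos : 0 < l i := lt_of_le_of_lt (Nat.zero_le _) j.2
    have hjeq : j = ⟨0, hpos⟩ := Fin.ext hj0
    have := congrFun hcol ⟨i, hpos⟩
    unfold col at this
    rw [hjeq]
    exact this

lemma f_le {n : ℕ} (l : Fin n → ℕ) : f l ≤ n ^ Fintype.card (Outer l) := by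
  have hinj : Function.Injective
      (fun (T : {T : Cells l → Fin n // IsSYT l T}) (c : Outer l) => T.1 c.1) := by
    intro T T' h
    apply Subtype.ext
    exact syt_determined T.2 T'.2 fun c hc => congrFun h ⟨c, hc⟩
  have h1 : Nat.card {T : Cells l → Fin n // IsSYT l T} ≤ Nat.card (Outer l → Fin n) :=
    Nat.card_le_card_of_injective _ hinj
  have h2 : Nat.card (Outer l → Fin n) = n ^ Fintype.card (Outer l) := by
    rw [Nat.card_eq_fintype_card, Fintype.card_fun, Fintype.card_fin]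
  rw [f, ← h2]
  exact h1

lemma card_outer {n : ℕ} (l : Fin n → ℕ) : Fintype.card (Outer l) = ∑ i, (l i - 1) := by
  classical
  have e : Outer l ≃ (i : Fin n) × {j : Fin (l i) // 0 < (j : ℕ)} :=
    { toFun := fun c => ⟨c.1.1, ⟨c.1.2, c.2⟩⟩
      invFun := fun c => ⟨⟨c.1, c.2.1⟩, c.2.2⟩
      left_inv := fun c => rfl
      right_inv := fun c => rfl }
  rw [Fintype.card_congr e, Fintype.card_sigma]
  refine Finset.sum_congr rfl fun i _ => ?_
  rw [Fintype.card_subtype]
  rcases Nat.eq_zero_or_pos (l i) with h | h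
  · have : IsEmpty (Fin (l i)) := by rw [h]; infer_instance
    simp [h]
  · obtain ⟨m, hm⟩ : ∃ m, l i = m + 1 := ⟨l i - 1, by omega⟩
    have : (Finset.univ.filter fun j : Fin (l i) => 0 < (j : ℕ)).card + 1 = l i := by
      have h1 : Finset.univ.filter (fun j : Fin (l i) => ¬ 0 < (j : ℕ)) = {⟨0, h⟩} := by
        ext j
        simp [Fin.ext_iff]
      have h2 := Finset.card_filter_add_card_filter_not (s := (Finset.univ : Finset (Fin (l i))))
        (fun j : Fin (l i) => 0 < (j : ℕ))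
      rw [h1, Finset.card_singleton, Finset.card_univ, Fintype.card_fin] at h2
      exact h2
    omega

lemma mem_Par {n : ℕ} {l : Fin n → ℕ} :
    l ∈ Par n ↔ (∀ i j : Fin n, i ≤ j → l j ≤ l i) ∧ ∑ i, l i = n := by
  unfold Par
  rw [Finset.mem_filter, Fintype.mem_piFinset]
  constructor
  · exact fun h => h.2
  · intro h
    refine ⟨fun i => ?_, h⟩
    rw [Finset.mem_range]
    have : l i ≤ ∑ i, l i := Finset.single_le_sum (fun _ _ => Nat.zero_le _) (Finset.mem_univ i)
    omega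

lemma sum_ind {n r : ℕ} (hr : r ≤ n) : ∑ i : Fin n, (if (i : ℕ) < r then 1 else 0) = r := by
  rw [Finset.sum_boole]
  have : (Finset.univ.filter fun i : Fin n => (i : ℕ) < r)
      = Finset.univ.map (Fin.castLEEmb hr) := by
    ext i
    simp only [Finset.mem_filter, Finset.mem_univ, true_and, Finset.mem_map, Fin.castLEEmb_apply]
    constructor
    · intro h
      exact ⟨⟨i, h⟩, by ext; rfl⟩
    · rintro ⟨j, rfl⟩
      exact j.2
  rw [this]
  simp

/-- Structure of the partitions with `λ₁ + ⋯ + λ_r = 2 r - 1`. -/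
lemma event_struct {n r : ℕ} (hr : 1 ≤ r) (hn : 2 * r ≤ n) {l : Fin n → ℕ} (hl : l ∈ Par n)
    (hS : S r l = 2 * r - 1) :
    (∀ i : Fin n, (i : ℕ) < r → 1 ≤ l i) ∧ (∀ i : Fin n, r ≤ (i : ℕ) → l i ≤ 1) := by
  obtain ⟨hanti, hsum⟩ := mem_Par.1 hl
  have hrn : r ≤ n := by omega
  constructor
  · intro i hi
    by_contra h
    have h0 : l i = 0 := by omega
    have h1 : S r l = ∑ k, l k := by
      unfold S
      refine Finset.sum_congr rfl fun k _ => ?_
      split_ifs with hk
      · rfl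
      · have : l k ≤ l i := hanti i k (by
          have : (i : ℕ) ≤ k := by omega
          exact this)
        omega
    omega
  · intro i hi
    by_contra h
    push Not at h
    have h1 : ∑ k : Fin n, (if (k : ℕ) < r then 2 else 0) ≤ S r l := by
      unfold S
      refine Finset.sum_le_sum fun k _ => ?_
      split_ifs with hk
      · have : l i ≤ l k := hanti k i (by
          have : (k : ℕ) ≤ i := by omega
          exact this)
        omega
      · exact le_rfl
    have h2 : ∑ k : Fin n, (if (k : ℕ) < r then 2 else 0) = 2 * r := by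
      have : ∀ k : Fin n, (if (k : ℕ) < r then 2 else 0) = 2 * (if (k : ℕ) < r then 1 else 0) :=
        fun k => by split_ifs <;> rfl
      simp only [this]
      rw [← Finset.mul_sum, sum_ind hrn]
    omega

lemma event_outer {n r : ℕ} (hr : 1 ≤ r) (hn : 2 * r ≤ n) {l : Fin n → ℕ} (hl : l ∈ Par n)
    (hS : S r l = 2 * r - 1) : f l ≤ n ^ (r - 1) := by
  obtain ⟨h1, h2⟩ := event_struct hr hn hl hS
  have h3 : ∑ i, (l i - 1) = r - 1 := by
    have h4 : ∑ i, (l i - 1) + ∑ i : Fin n, (if (i : ℕ) < r then 1 else 0) = S r l := by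
      rw [← Finset.sum_add_distrib]
      unfold S
      refine Finset.sum_congr rfl fun i _ => ?_
      split_ifs with h
      · have := h1 i h; omega
      · have := h2 i (by omega); omega
    rw [sum_ind (by omega), hS] at h4
    omega
  have := f_le l
  rwa [card_outer, h3] at this

/-- The part of the sum beyond the first `r` rows. -/
lemma sum_tail {n : ℕ} (r : ℕ) (l : Fin n → ℕ) :
    ∑ i, l i = S r l + ∑ i : Fin n, (if r ≤ (i : ℕ) then l i else 0) := by
  unfold S
  rw [← Finset.sum_add_distrib]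
  refine Finset.sum_congr rfl fun i _ => ?_
  by_cases h : (i : ℕ) < r
  · rw [if_pos h, if_neg (by omega), add_zero]
  · rw [if_neg h, if_pos (by omega), zero_add]

lemma sum_interval {n a b : ℕ} (hab : a ≤ b) (hb : b ≤ n) :
    ∑ i : Fin n, (if a ≤ (i : ℕ) ∧ (i : ℕ) < b then 1 else 0) = b - a := by
  have h1 : ∑ i : Fin n, (if a ≤ (i : ℕ) ∧ (i : ℕ) < b then 1 else 0)
      + ∑ i : Fin n, (if (i : ℕ) < a then 1 else 0) = ∑ i : Fin n, (if (i : ℕ) < b then 1 else 0) := by
    rw [← Finset.sum_add_distrib]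
    refine Finset.sum_congr rfl fun i _ => ?_
    by_cases h : (i : ℕ) < a
    · rw [if_neg (by omega), if_pos h, if_pos (by omega)]
    · by_cases h' : (i : ℕ) < b
      · rw [if_pos (by omega), if_neg h, if_pos h']
      · rw [if_neg (by omega), if_neg h, if_neg h']
  rw [sum_ind (by omega), sum_ind hb] at h1
  omega

lemma event_tail {n r : ℕ} (hr : 1 ≤ r) (hn : 2 * r ≤ n) {l : Fin n → ℕ} (hl : l ∈ Par n)
    (hS : S r l = 2 * r - 1) (i : Fin n) (hi : r ≤ (i : ℕ)) :
    l i = if (i : ℕ) < n + 1 - r then 1 else 0 := by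
  obtain ⟨hanti, hsum⟩ := mem_Par.1 hl
  obtain ⟨h1, h2⟩ := event_struct hr hn hl hS
  have htail := sum_tail r l
  rw [hsum, hS] at htail
  have hi1 := h2 i hi
  have hin := i.2
  split_ifs with h
  · by_contra hne
    have h0 : l i = 0 := by omega
    have h3 : ∑ k : Fin n, (if r ≤ (k : ℕ) then l k else 0)
        ≤ ∑ k : Fin n, (if r ≤ (k : ℕ) ∧ (k : ℕ) < i then 1 else 0) := by
      refine Finset.sum_le_sum fun k _ => ?_
      by_cases hk : r ≤ (k : ℕ)
      · rw [if_pos hk]
        by_cases hk' : (k : ℕ) < i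
        · rw [if_pos ⟨hk, hk'⟩]; exact h2 k hk
        · rw [if_neg (by omega)]
          have := hanti i k (by
            have : (i : ℕ) ≤ k := by omega
            exact this)
          omega
      · rw [if_neg hk, if_neg (by omega)]
    rw [sum_interval hi hin.le] at h3
    omega
  · by_contra hne
    have h0 : 1 ≤ l i := by omega
    have h3 : ∑ k : Fin n, (if r ≤ (k : ℕ) ∧ (k : ℕ) < i + 1 then 1 else 0)
        ≤ ∑ k : Fin n, (if r ≤ (k : ℕ) then l k else 0) := by
      refine Finset.sum_le_sum fun k _ => ?_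
      by_cases hk : r ≤ (k : ℕ)
      · rw [if_pos hk]
        by_cases hk' : (k : ℕ) < i + 1
        · rw [if_pos ⟨hk, hk'⟩]
          have := hanti k i (by
            have : (k : ℕ) ≤ i := by omega
            exact this)
          omega
        · rw [if_neg (by omega)]; exact Nat.zero_le _
      · rw [if_neg hk, if_neg (by omega)]
    rw [sum_interval (by omega) (by omega)] at h3
    omega

lemma event_card {n r : ℕ} (hr : 1 ≤ r) (hn : 2 * r ≤ n) :
    ((Par n).filter (fun l => S r l = 2 * r - 1)).card ≤ (2 * r) ^ r := by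
  classical
  have hle : ∀ l ∈ (Par n).filter (fun l => S r l = 2 * r - 1), ∀ i : Fin n, (i : ℕ) < r →
      l i < 2 * r := by
    intro l hl i hi
    have hS : S r l = 2 * r - 1 := (Finset.mem_filter.1 hl).2
    have h1 : (if (i : ℕ) < r then l i else 0) ≤ S r l := by
      unfold S
      exact Finset.single_le_sum (f := fun i : Fin n => if (i : ℕ) < r then l i else 0)
        (fun _ _ => Nat.zero_le _) (Finset.mem_univ i)
    rw [if_pos hi] at h1
    omega
  have h1 : ((Par n).filter (fun l => S r l = 2 * r - 1)).card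
      ≤ (Fintype.piFinset fun _ : Fin r => Finset.range (2 * r)).card := by
    refine Finset.card_le_card_of_injOn (fun l (i : Fin r) => l ⟨i, by omega⟩) ?_ ?_
    · intro l hl
      rw [Finset.mem_coe, Fintype.mem_piFinset]
      intro i
      rw [Finset.mem_range]
      exact hle l hl _ i.2
    · intro l hl l' hl' h
      rw [Finset.mem_coe, Finset.mem_filter] at hl hl'
      funext i
      by_cases hi : (i : ℕ) < r
      · exact congrFun h ⟨i, hi⟩
      · rw [event_tail hr hn hl.1 hl.2 i (by omega), event_tail hr hn hl'.1 hl'.2 i (by omega)]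
  refine h1.trans ?_
  simp

/-! ### The hook and the two-column shape -/

/-- The hook `(r - 1, 1, …, 1)`. -/
def hook (n r : ℕ) : Fin n → ℕ := fun i =>
  if (i : ℕ) = 0 then r - 1 else if (i : ℕ) < n + 2 - r then 1 else 0

lemma sum_hook {n r : ℕ} (hr : 2 ≤ r) (hn : 2 * r ≤ n) : ∑ i, hook n r i = n := by
  have h1 : ∀ i : Fin n, hook n r i = (r - 1) * (if (i : ℕ) < 1 then 1 else 0)
      + (if 1 ≤ (i : ℕ) ∧ (i : ℕ) < n + 2 - r then 1 else 0) := by
    intro i
    unfold hook
    by_cases h : (i : ℕ) = 0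
    · rw [if_pos h, if_pos (by omega), if_neg (by omega)]; omega
    · rw [if_neg h, if_neg (by omega : ¬ (i : ℕ) < 1)]
      by_cases h' : (i : ℕ) < n + 2 - r
      · rw [if_pos h', if_pos (by omega)]; omega
      · rw [if_neg h', if_neg (by omega)]; omega
  simp only [h1]
  rw [Finset.sum_add_distrib, ← Finset.mul_sum, sum_ind (by omega), sum_interval (by omega)
    (by omega)]
  omega

lemma S_hook {n r : ℕ} (hr : 2 ≤ r) (hn : 2 * r ≤ n) : S r (hook n r) = 2 * r - 2 := by
  have h1 : ∀ i : Fin n, (if (i : ℕ) < r then hook n r i else 0)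
      = (r - 1) * (if (i : ℕ) < 1 then 1 else 0)
      + (if 1 ≤ (i : ℕ) ∧ (i : ℕ) < r then 1 else 0) := by
    intro i
    unfold hook
    by_cases h : (i : ℕ) = 0
    · rw [if_pos (by omega), if_pos h, if_pos (by omega), if_neg (by omega)]; omega
    · by_cases h' : (i : ℕ) < r
      · rw [if_pos h', if_neg h, if_pos (by omega), if_neg (by omega), if_pos (by omega)]; omega
      · rw [if_neg h', if_neg (by omega), if_neg (by omega)]; omega
  unfold S
  simp only [h1]
  rw [Finset.sum_add_distrib, ← Finset.mul_sum, sum_ind (by omega), sum_interval (by omega)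
    (by omega)]
  omega

lemma hook_mem {n r : ℕ} (hr : 2 ≤ r) (hn : 2 * r ≤ n) : hook n r ∈ Par n := by
  refine mem_Par.2 ⟨fun i j hij => ?_, sum_hook hr hn⟩
  have hij' : (i : ℕ) ≤ j := hij
  unfold hook
  split_ifs <;> omega

lemma hook_lt {n r : ℕ} {i : Fin n} {j : ℕ} (h : j < hook n r i) :
    ((i : ℕ) = 0 ∧ j < r - 1) ∨ (¬ (i : ℕ) = 0 ∧ j = 0 ∧ (i : ℕ) < n + 2 - r) := by
  unfold hook at h
  split_ifs at h <;> omega

lemma f_hook {n r : ℕ} (hr : 2 ≤ r) (hn : 2 * r ≤ n) : 1 ≤ f (hook n r) := by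
  have hlt : ∀ c : Cells (hook n r), (if (c.1 : ℕ) = 0 then (c.2 : ℕ) else r - 2 + c.1) < n := by
    rintro ⟨i, j⟩
    have hi := i.2
    rcases hook_lt j.2 with ⟨h1, h2⟩ | ⟨h1, h2, h3⟩
    · rw [if_pos h1]; simp only; omega
    · rw [if_neg h1]; simp only; omega
  set T : Cells (hook n r) → Fin n := fun c =>
    ⟨if (c.1 : ℕ) = 0 then (c.2 : ℕ) else r - 2 + c.1, hlt c⟩ with hT
  have hTval : ∀ (i : Fin n) (j : Fin (hook n r i)),
      ((T ⟨i, j⟩ : Fin n) : ℕ) = if (i : ℕ) = 0 then (j : ℕ) else r - 2 + i := fun i j => rfl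
  have hinj : Function.Injective T := by
    rintro ⟨i, j⟩ ⟨i', j'⟩ h
    have h' := congrArg Fin.val h
    rw [hTval, hTval] at h'
    have hii : i = i' := by
      apply Fin.ext
      rcases hook_lt j.2 with ⟨h1, h2⟩ | ⟨h1, h2, h3⟩ <;>
      rcases hook_lt j'.2 with ⟨h4, h5⟩ | ⟨h4, h5, h6⟩ <;>
      simp only [h1, h4, if_true, if_false] at h' <;> omega
    subst hii
    have hjj : j = j' := by
      apply Fin.ext
      rcases hook_lt j.2 with ⟨h1, h2⟩ | ⟨h1, h2, h3⟩ <;>
      rcases hook_lt j'.2 with ⟨h4, h5⟩ | ⟨h4, h5, h6⟩ <;>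
      simp only [h1, if_true, if_false] at h' <;> omega
    rw [hjj]
  have hcard : Fintype.card (Cells (hook n r)) = Fintype.card (Fin n) := by
    rw [Fintype.card_sigma]
    simp [sum_hook hr hn]
  have hsyt : IsSYT (hook n r) T := by
    refine ⟨(Fintype.bijective_iff_injective_and_card T).2 ⟨hinj, hcard⟩, ?_, ?_⟩
    · intro i j k hjk
      have hjk' : (j : ℕ) < k := hjk
      rw [Fin.lt_def, hTval, hTval]
      rcases hook_lt j.2 with ⟨h1, h2⟩ | ⟨h1, h2, h3⟩ <;>
      rcases hook_lt k.2 with ⟨h4, h5⟩ | ⟨h4, h5, h6⟩ <;>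
      simp only [h1, if_true, if_false] <;> omega
    · intro i i' j j' hii hjj
      have hii' : (i : ℕ) < i' := hii
      rw [Fin.lt_def, hTval, hTval]
      rcases hook_lt j.2 with ⟨h1, h2⟩ | ⟨h1, h2, h3⟩ <;>
      rcases hook_lt j'.2 with ⟨h4, h5⟩ | ⟨h4, h5, h6⟩ <;>
      simp only [h1, h4, if_true, if_false] <;> omega
  have : Nonempty {T : Cells (hook n r) → Fin n // IsSYT (hook n r) T} := ⟨⟨T, hsyt⟩⟩
  exact Nat.one_le_iff_ne_zero.2 (Nat.card_pos (α := {T : Cells (hook n r) → Fin n //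
    IsSYT (hook n r) T})).ne'

/-- The two-column shape `(2, …, 2)` or `(2, …, 2, 1)`. -/
def two (n : ℕ) : Fin n → ℕ := fun i => min 2 (n - 2 * i)

lemma two_lt {n : ℕ} {i : Fin n} {j : ℕ} (h : j < two n i) :
    (j = 0 ∧ 2 * (i : ℕ) < n) ∨ (j = 1 ∧ 2 * (i : ℕ) + 1 < n) := by
  unfold two at h
  omega

lemma sum_two (n : ℕ) : ∑ i, two n i = n := by
  have hbij : Function.Bijective (fun c : Cells (two n) =>
      (⟨2 * (c.1 : ℕ) + (c.2 : ℕ), by
        rcases two_lt c.2.2 with ⟨h1, h2⟩ | ⟨h1, h2⟩ <;> omega⟩ : Fin n)) := by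
    constructor
    · rintro ⟨i, j⟩ ⟨i', j'⟩ h
      have h' := congrArg Fin.val h
      simp only at h'
      have hii : i = i' := by
        apply Fin.ext
        rcases two_lt j.2 with ⟨h1, h2⟩ | ⟨h1, h2⟩ <;>
        rcases two_lt j'.2 with ⟨h3, h4⟩ | ⟨h3, h4⟩ <;> omega
      subst hii
      have hjj : j = j' := by
        apply Fin.ext
        omega
      rw [hjj]
    · intro v
      have hv := v.2
      refine ⟨⟨⟨v / 2, by omega⟩, ⟨v % 2, ?_⟩⟩, ?_⟩
      · show (v : ℕ) % 2 < min 2 (n - 2 * ((v : ℕ) / 2))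
        omega
      · apply Fin.ext
        show 2 * ((v : ℕ) / 2) + (v : ℕ) % 2 = v
        omega
  have h1 := Fintype.card_of_bijective hbij
  rw [Fintype.card_sigma] at h1
  simpa using h1

lemma two_mem (n : ℕ) : two n ∈ Par n := by
  refine mem_Par.2 ⟨fun i j hij => ?_, sum_two n⟩
  have hij' : (i : ℕ) ≤ j := hij
  unfold two
  omega

lemma S_two {n r : ℕ} (hn : 2 * r ≤ n) : S r (two n) = 2 * r := by
  have h1 : ∀ i : Fin n, (if (i : ℕ) < r then two n i else 0)
      = 2 * (if (i : ℕ) < r then 1 else 0) := by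
    intro i
    unfold two
    split_ifs
    · omega
    · rfl
  unfold S
  simp only [h1]
  rw [← Finset.mul_sum, sum_ind (by omega)]

/-- The entries of the tableau with swaps `σ`. -/
def val (n : ℕ) (σ : Fin ((n - 1) / 2) → Bool) (i j : ℕ) : ℕ :=
  if j = 0 then 2 * i - (if h : 1 ≤ i ∧ i - 1 < (n - 1) / 2 then (σ ⟨i - 1, h.2⟩).toNat else 0)
  else 2 * i + 1 + (if h : i < (n - 1) / 2 then (σ ⟨i, h⟩).toNat else 0)

lemma val_zero (n : ℕ) (σ : Fin ((n - 1) / 2) → Bool) (i : ℕ) :
    val n σ i 0 ≤ 2 * i ∧ 2 * i ≤ val n σ i 0 + 1 := by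
  unfold val
  rw [if_pos rfl]
  split_ifs with h
  · have := Bool.toNat_le (σ ⟨i - 1, h.2⟩); omega
  · omega

lemma val_one (n : ℕ) (σ : Fin ((n - 1) / 2) → Bool) (i : ℕ) (hi : 2 * i + 1 < n) :
    2 * i + 1 ≤ val n σ i 1 ∧ val n σ i 1 ≤ 2 * i + 2 ∧ val n σ i 1 < n := by
  unfold val
  rw [if_neg one_ne_zero]
  split_ifs with h
  · have := Bool.toNat_le (σ ⟨i, h⟩); omega
  · omega

lemma val_ne (n : ℕ) (σ : Fin ((n - 1) / 2) → Bool) (i : ℕ) (hn : 2 * (i + 1) < n) :
    val n σ i 1 ≠ val n σ (i + 1) 0 := by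
  unfold val
  rw [if_neg one_ne_zero, if_pos rfl]
  have h1 : i < (n - 1) / 2 := by omega
  have h2 : 1 ≤ i + 1 ∧ i + 1 - 1 < (n - 1) / 2 := by
    constructor
    · omega
    · simpa using h1
  rw [dif_pos h1, dif_pos h2]
  have h3 : (⟨i + 1 - 1, h2.2⟩ : Fin ((n - 1) / 2)) = ⟨i, h1⟩ := by
    apply Fin.ext; simp
  rw [h3]
  cases σ ⟨i, h1⟩ <;> simp <;> omega

lemma f_two (n : ℕ) : 2 ^ ((n - 1) / 2) ≤ f (two n) := by
  have hlt : ∀ (σ : Fin ((n - 1) / 2) → Bool) (c : Cells (two n)), val n σ c.1 c.2 < n := by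
    intro σ c
    rcases two_lt c.2.2 with ⟨h1, h2⟩ | ⟨h1, h2⟩
    · rw [h1]; have := val_zero n σ c.1; omega
    · rw [h1]; exact (val_one n σ c.1 h2).2.2
  set T : (Fin ((n - 1) / 2) → Bool) → Cells (two n) → Fin n := fun σ c =>
    ⟨val n σ c.1 c.2, hlt σ c⟩ with hT
  have hTval : ∀ σ (i : Fin n) (j : Fin (two n i)),
      ((T σ ⟨i, j⟩ : Fin n) : ℕ) = val n σ i j := fun σ i j => rfl
  have hinj : ∀ σ, Function.Injective (T σ) := by
    rintro σ ⟨i, j⟩ ⟨i', j'⟩ h
    have h' := congrArg Fin.val h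
    rw [hTval, hTval] at h'
    rcases two_lt j.2 with ⟨h1, h2⟩ | ⟨h1, h2⟩ <;> rcases two_lt j'.2 with ⟨h3, h4⟩ | ⟨h3, h4⟩ <;>
      rw [h1, h3] at h'
    · have e1 := val_zero n σ i
      have e2 := val_zero n σ i'
      have hii : i = i' := Fin.ext (by omega)
      subst hii
      rw [Fin.ext (h1.trans h3.symm)]
    · exfalso
      have e1 := val_zero n σ i
      have e2 := val_one n σ i' h4
      have hii : (i : ℕ) = i' + 1 := by omega
      rw [hii] at h' h2
      exact val_ne n σ i' h2 h'.symm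
    · exfalso
      have e1 := val_zero n σ i'
      have e2 := val_one n σ i h2
      have hii : (i' : ℕ) = i + 1 := by omega
      rw [hii] at h' h4
      exact val_ne n σ i h4 h'
    · have e1 := val_one n σ i h2
      have e2 := val_one n σ i' h4
      have hii : i = i' := Fin.ext (by omega)
      subst hii
      rw [Fin.ext (h1.trans h3.symm)]
  have hcard : Fintype.card (Cells (two n)) = Fintype.card (Fin n) := by
    rw [Fintype.card_sigma]
    simp [sum_two n]
  have hsyt : ∀ σ, IsSYT (two n) (T σ) := by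
    intro σ
    refine ⟨(Fintype.bijective_iff_injective_and_card (T σ)).2 ⟨hinj σ, hcard⟩, ?_, ?_⟩
    · intro i j k hjk
      have hjk' : (j : ℕ) < k := hjk
      rw [Fin.lt_def, hTval, hTval]
      rcases two_lt j.2 with ⟨h1, h2⟩ | ⟨h1, h2⟩ <;> rcases two_lt k.2 with ⟨h3, h4⟩ | ⟨h3, h4⟩
      · omega
      · rw [h1, h3]
        have e1 := val_zero n σ i
        have e2 := val_one n σ i h4
        omega
      · omega
      · omega
    · intro i i' j j' hii hjj
      have hii' : (i : ℕ) < i' := hii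
      rw [Fin.lt_def, hTval, hTval]
      rcases two_lt j.2 with ⟨h1, h2⟩ | ⟨h1, h2⟩ <;> rcases two_lt j'.2 with ⟨h3, h4⟩ | ⟨h3, h4⟩
      · rw [h1, h3]
        have e1 := val_zero n σ i
        have e2 := val_zero n σ i'
        omega
      · omega
      · omega
      · rw [h1, h3]
        have e1 := val_one n σ i h2
        have e2 := val_one n σ i' h4
        omega
  have hinj2 : Function.Injective (fun σ : Fin ((n - 1) / 2) → Bool =>
      (⟨T σ, hsyt σ⟩ : {T : Cells (two n) → Fin n // IsSYT (two n) T})) := by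
    intro σ σ' h
    have h1 : T σ = T σ' := congrArg Subtype.val h
    funext k
    have hk := k.2
    have hcell : 1 < two n ⟨k, by omega⟩ := by
      show 1 < min 2 (n - 2 * (k : ℕ))
      omega
    have h2 := congrArg Fin.val (congrFun h1 ⟨⟨k, by omega⟩, ⟨1, hcell⟩⟩)
    rw [hTval, hTval] at h2
    simp only [val, one_ne_zero, if_false] at h2
    rw [dif_pos hk, dif_pos hk] at h2
    have h3 : (σ ⟨k, hk⟩).toNat = (σ' ⟨k, hk⟩).toNat := by omega
    have h4 : σ k = σ' k := by
      revert h3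
      have : (⟨(k : ℕ), hk⟩ : Fin ((n - 1) / 2)) = k := rfl
      rw [this]
      cases σ k <;> cases σ' k <;> simp
    exact h4
  have h1 := Nat.card_le_card_of_injective _ hinj2
  rw [Nat.card_eq_fintype_card, Fintype.card_fun] at h1
  simpa [f] using h1

/-! ### The conclusion -/

lemma prob_ge {n r s : ℕ} {l : Fin n → ℕ} (hl : l ∈ Par n) (hS : S r l = s) :
    (f l : ℝ) ^ 2 / (n.factorial : ℝ) ≤ prob n r s := by
  unfold prob
  exact Finset.single_le_sum (f := fun l : Fin n → ℕ => (f l : ℝ) ^ 2 / (n.factorial : ℝ))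
    (fun l _ => by positivity) (Finset.mem_filter.2 ⟨hl, hS⟩)

lemma prob_le {n r : ℕ} (hr : 1 ≤ r) (hn : 2 * r ≤ n) :
    prob n r (2 * r - 1) ≤ ((2 * r) ^ r : ℕ) * (((n : ℝ) ^ (r - 1)) ^ 2 / (n.factorial : ℝ)) := by
  unfold prob
  refine (Finset.sum_le_card_nsmul _ _ (((n : ℝ) ^ (r - 1)) ^ 2 / (n.factorial : ℝ))
    fun l hl => ?_).trans ?_
  · have h1 := event_outer hr hn (Finset.mem_filter.1 hl).1 (Finset.mem_filter.1 hl).2
    have h2 : (f l : ℝ) ≤ (n : ℝ) ^ (r - 1) := by exact_mod_cast h1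
    gcongr
  · rw [nsmul_eq_mul]
    have h3 := event_card hr hn
    have h4 : (((Par n).filter (fun l => S r l = 2 * r - 1)).card : ℝ) ≤ ((2 * r) ^ r : ℕ) := by
      exact_mod_cast h3
    exact mul_le_mul_of_nonneg_right h4 (by positivity)

/-- For every `r ≥ 2` and all sufficiently large `n`, the distribution of `λ₁ + ⋯ + λ_r` under
the Plancherel measure on partitions of `n` is not log-concave: the inequality fails at
`j = 2 r - 1`. -/
theorem result (r : ℕ) (hr : 2 ≤ r) : ∃ N : ℕ, ∀ n : ℕ, N ≤ n →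
    prob n r (2 * r - 1 - 1) * prob n r (2 * r - 1 + 1) > prob n r (2 * r - 1) ^ 2 := by
  -- exponential beats polynomial
  have hlim : Filter.Tendsto (fun n : ℕ => (n : ℝ) ^ (4 * (r - 1)) / (2 : ℝ) ^ n)
      Filter.atTop (nhds 0) :=
    tendsto_pow_const_div_const_pow_of_one_lt _ (by norm_num)
  set K : ℝ := (((2 * r) ^ r : ℕ) : ℝ) ^ 2 with hK
  have hKpos : 0 < K := by positivity
  have hev : ∀ᶠ n : ℕ in Filter.atTop, (n : ℝ) ^ (4 * (r - 1)) / (2 : ℝ) ^ n < 1 / (4 * K) :=
    hlim.eventually_lt_const (by positivity)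
  obtain ⟨N, hN⟩ := Filter.eventually_atTop.1 hev
  refine ⟨max N (2 * r), fun n hn => ?_⟩
  have hnN : N ≤ n := (le_max_left _ _).trans hn
  have hn2 : 2 * r ≤ n := (le_max_right _ _).trans hn
  have h1 := hN n hnN
  rw [div_lt_div_iff₀ (by positivity) (by positivity)] at h1
  have e1 : 2 * r - 1 - 1 = 2 * r - 2 := by omega
  have e2 : 2 * r - 1 + 1 = 2 * r := by omega
  rw [e1, e2]
  have hfac : (0 : ℝ) < (n.factorial : ℝ) := by exact_mod_cast n.factorial_pos
  have hA : 1 / (n.factorial : ℝ) ≤ prob n r (2 * r - 2) := by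
    refine le_trans ?_ (prob_ge (hook_mem hr hn2) (S_hook hr hn2))
    have : (1 : ℝ) ≤ f (hook n r) := by exact_mod_cast f_hook hr hn2
    have : (1 : ℝ) ≤ (f (hook n r) : ℝ) ^ 2 := by nlinarith
    gcongr
  have hB : (2 : ℝ) ^ n / 4 / (n.factorial : ℝ) ≤ prob n r (2 * r) := by
    refine le_trans ?_ (prob_ge (two_mem n) (S_two hn2))
    have h2 : ((2 : ℝ) ^ ((n - 1) / 2)) ≤ f (two n) := by exact_mod_cast f_two n
    have h3 : (2 : ℝ) ^ n / 4 ≤ (f (two n) : ℝ) ^ 2 := by
      have h4 : ((2 : ℝ) ^ ((n - 1) / 2)) ^ 2 ≤ (f (two n) : ℝ) ^ 2 := by gcongr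
      refine le_trans ?_ h4
      rw [← pow_mul, div_le_iff₀ (by norm_num)]
      have h5 : (4 : ℝ) = 2 ^ 2 := by norm_num
      rw [h5, ← pow_add]
      exact pow_le_pow_right₀ (by norm_num) (by omega)
    gcongr
  have hC := prob_le (by omega : 1 ≤ r) hn2
  have hC0 : 0 ≤ prob n r (2 * r - 1) := by
    unfold prob
    exact Finset.sum_nonneg fun l _ => by positivity
  have h6 : prob n r (2 * r - 1) ^ 2
      ≤ K * (n : ℝ) ^ (4 * (r - 1)) / (n.factorial : ℝ) ^ 2 := by
    calc prob n r (2 * r - 1) ^ 2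
        ≤ (((2 * r) ^ r : ℕ) * (((n : ℝ) ^ (r - 1)) ^ 2 / (n.factorial : ℝ))) ^ 2 := by gcongr
      _ = K * (n : ℝ) ^ (4 * (r - 1)) / (n.factorial : ℝ) ^ 2 := by
        rw [hK, mul_pow, div_pow, ← pow_mul, ← pow_mul]
        have : (r - 1) * (2 * 2) = 4 * (r - 1) := by ring
        rw [this]
        ring
  have h7 : 1 / (n.factorial : ℝ) * ((2 : ℝ) ^ n / 4 / (n.factorial : ℝ))
      ≤ prob n r (2 * r - 2) * prob n r (2 * r) := by
    have : 0 ≤ prob n r (2 * r - 2) := le_trans (by positivity) hA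
    gcongr
  have h8 : K * (n : ℝ) ^ (4 * (r - 1)) / (n.factorial : ℝ) ^ 2
      < 1 / (n.factorial : ℝ) * ((2 : ℝ) ^ n / 4 / (n.factorial : ℝ)) := by
    have e : 1 / (n.factorial : ℝ) * ((2 : ℝ) ^ n / 4 / (n.factorial : ℝ))
        = ((2 : ℝ) ^ n / 4) / (n.factorial : ℝ) ^ 2 := by
      field_simp
    rw [e]
    gcongr
    linarith
  exact lt_of_le_of_lt h6 (lt_of_lt_of_le h8 h7)

end Pool.Agent.Results.MP_64a7c6_pr.SumsNotLogConcave
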